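import Mathlib

set_option autoImplicit false

/-!
A proper σ-algebra on an interval which contains all subintervals and a selector for every
partition into pieces with at least two elements.
-/

namespace Pool.Agent.Results.MP_04ddd8_lc.ProperSigmaAlgebra

open Set

/-- In a well-order without long initial segments no final segment admits a regressive function
with countable fibres. -/
lemma no_regressive {α : Type} [LinearOrder α] [WellFoundedLT α]
    (hI : ∀ i : α, Cardinal.mk (Iio i) < Cardinal.mk α) (hα : Cardinal.aleph0 < Cardinal.mk α)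
    (y : α) (f : α → α) (hf : ∀ x, y < x → f x < x)
    (hc : ∀ z, {x | y < x ∧ f x = z}.Countable) : False := by
  classical
  have hIic : ∀ i : α, Cardinal.mk (Iic i) < Cardinal.mk α := by
    intro i
    rw [← Iio_insert]
    exact lt_of_le_of_lt Cardinal.mk_insert_le
      (Cardinal.add_lt_of_lt hα.le (hI i) (lt_of_lt_of_le Cardinal.one_lt_aleph0 hα.le))
  set μ : Cardinal := max (Cardinal.mk (Iic y)) Cardinal.aleph0 with hμ
  have hμα : μ < Cardinal.mk α := max_lt (hIic y) hα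
  have hμ0 : Cardinal.aleph0 ≤ μ := le_max_right _ _
  have hμμ : μ * μ = μ := Cardinal.mul_eq_self hμ0
  set Θ : Set α := {t | Cardinal.mk (Iic t) ≤ μ} with hΘ
  have hyΘ : y ∈ Θ := show Cardinal.mk (Iic y) ≤ μ from le_max_left _ _
  have hdown : ∀ t t', t' ≤ t → t ∈ Θ → t' ∈ Θ := fun t t' h ht =>
    (Cardinal.mk_le_mk_of_subset (Iic_subset_Iic.2 h)).trans ht
  have hΘμ : μ < Cardinal.mk Θ := by
    by_cases hu : Θ = univ
    · rw [hu, Cardinal.mk_univ]
      exact hμα
    · obtain ⟨t0, ht0⟩ : (Θᶜ).Nonempty := nonempty_compl.2 hu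
      set θ := WellFounded.min (wellFounded_lt (α := α)) Θᶜ ⟨t0, ht0⟩ with hθ
      have hθ0 : θ ∈ Θᶜ := WellFounded.min_mem _ _ _
      have hθ1 : θ ∉ Θ := hθ0
      have hθ2 : ∀ t, t < θ → t ∈ Θ := by
        intro t ht
        by_contra hn
        exact WellFounded.not_lt_min (wellFounded_lt (α := α)) Θᶜ hn ht
      by_contra hle
      push Not at hle
      apply hθ1
      have h1 : Iio θ ⊆ Θ := fun t ht => hθ2 t ht
      have h2 : Cardinal.mk (Iic θ) ≤ Cardinal.mk (Iio θ) + 1 := by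
        rw [← Iio_insert]
        exact Cardinal.mk_insert_le
      have h3 : Cardinal.mk (Iio θ) + 1 ≤ μ + 1 :=
        add_le_add_left ((Cardinal.mk_le_mk_of_subset h1).trans hle) 1
      have h4 : μ + 1 = μ := Cardinal.add_one_eq hμ0
      exact h2.trans (h3.trans h4.le)
  have hun : ∀ (S : Set α) (F : α → Set α), Cardinal.mk S ≤ μ → (∀ x ∈ S, Cardinal.mk (F x) ≤ μ) →
      Cardinal.mk (⋃ x : S, F x) ≤ μ := by
    intro S F hS hF
    refine (Cardinal.mk_iUnion_le_sum_mk).trans ?_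
    refine (Cardinal.sum_le_sum _ (fun _ : S => μ) fun x => hF x.1 x.2).trans ?_
    rw [Cardinal.sum_const']
    calc Cardinal.mk S * μ ≤ μ * μ := mul_le_mul_left hS μ
      _ = μ := hμμ
  have hbound : ∀ S ⊆ Θ, Cardinal.mk S ≤ μ → ∃ b ∈ Θ, ∀ x ∈ S, x < b := by
    intro S hS hSμ
    by_contra hcon
    push Not at hcon
    have h1 : Θ ⊆ ⋃ x : S, Iic x.1 := by
      intro b hb
      obtain ⟨x, hx, hbx⟩ := hcon b hb
      exact mem_iUnion.2 ⟨⟨x, hx⟩, hbx⟩
    have h2 := (Cardinal.mk_le_mk_of_subset h1).trans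
      (hun S (fun x => Iic x) hSμ fun x hx => hS hx)
    exact absurd h2 (not_le.2 hΘμ)
  have hstep : ∀ z : Θ, ∃ b : Θ, z.1 < b.1 ∧ ∀ x ∈ Θ, y < x → f x ≤ z.1 → x < b.1 := by
    rintro ⟨z, hz⟩
    set S : Set α := insert z {x | x ∈ Θ ∧ y < x ∧ f x ≤ z} with hS
    have h1 : S ⊆ Θ := by
      rintro x (hx | hx)
      · rw [hx]; exact hz
      · exact hx.1
    have h2 : {x | x ∈ Θ ∧ y < x ∧ f x ≤ z} ⊆ ⋃ w : Iic z, {x | y < x ∧ f x = w.1} := by
      intro x hx
      exact mem_iUnion.2 ⟨⟨f x, hx.2.2⟩, hx.2.1, rfl⟩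
    have h3 : Cardinal.mk S ≤ μ := by
      refine Cardinal.mk_insert_le.trans ?_
      have h4 := (Cardinal.mk_le_mk_of_subset h2).trans
        (hun (Iic z) (fun w => {x | y < x ∧ f x = w}) hz fun w _ =>
          (Cardinal.le_aleph0_iff_set_countable.2 (hc w)).trans hμ0)
      calc _ ≤ μ + 1 := add_le_add_left h4 1
        _ = μ := Cardinal.add_one_eq hμ0
    obtain ⟨b, hb, hb2⟩ := hbound S h1 h3
    exact ⟨⟨b, hb⟩, hb2 z (mem_insert _ _), fun x hx hyx hfx =>
      hb2 x (mem_insert_of_mem _ ⟨hx, hyx, hfx⟩)⟩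
  choose g hg using hstep
  obtain ⟨b0, hb0, hb0'⟩ := hbound {y} (singleton_subset_iff.2 hyΘ)
    (by rw [Cardinal.mk_singleton]; exact Cardinal.one_le_aleph0.trans hμ0)
  set γ : ℕ → Θ := fun n => Nat.rec ⟨b0, hb0⟩ (fun _ z => g z) n with hγ
  have hγs : ∀ n, γ (n + 1) = g (γ n) := fun n => rfl
  obtain ⟨b, hb, hb'⟩ := hbound (range fun n => (γ n).1) (by
      rintro _ ⟨n, rfl⟩
      exact (γ n).2)
    ((Cardinal.le_aleph0_iff_set_countable.2 (countable_range _)).trans hμ0)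
  set U : Set α := {t | ∀ n, (γ n).1 < t} with hU
  have hUne : U.Nonempty := ⟨b, fun n => hb' _ ⟨n, rfl⟩⟩
  set δ := WellFounded.min (wellFounded_lt (α := α)) U hUne with hδ
  have hδU : δ ∈ U := WellFounded.min_mem _ _ _
  have hδb : δ ≤ b := by
    by_contra hlt
    push Not at hlt
    exact WellFounded.not_lt_min (wellFounded_lt (α := α)) U
      (show b ∈ U from fun n => hb' _ ⟨n, rfl⟩) hlt
  have hδΘ : δ ∈ Θ := hdown b δ hδb hb
  have hyδ : y < δ := lt_trans (hb0' y rfl) (hδU 0)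
  have hfδ := hf δ hyδ
  have hnU : f δ ∉ U := fun h =>
    WellFounded.not_lt_min (wellFounded_lt (α := α)) U h hfδ
  obtain ⟨n, hn⟩ : ∃ n, f δ ≤ (γ n).1 := by
    by_contra hcon
    push Not at hcon
    exact hnU hcon
  have h5 := (hg (γ n)).2 δ hδΘ hyδ hn
  rw [← hγs] at h5
  exact lt_asymm h5 (hδU (n + 1))

/-- The combinatorial core. -/
lemma core {α : Type} (hα : Cardinal.mk α = Cardinal.continuum) (B : Set (Set α))
    (hB : Cardinal.mk B ≤ Cardinal.continuum) :
    ∃ J : Set (Set α), (∀ s ∈ J, ∀ t ⊆ s, t ∈ J) ∧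
      (∀ s : ℕ → Set α, (∀ n, s n ∈ J) → (⋃ n, s n) ∈ J) ∧
      (∀ P : Set (Set α), (∀ p ∈ P, ∀ q ∈ P, (p ∩ q).Nonempty → p = q) →
        (∀ p ∈ P, p.Nontrivial) → ∃ S ∈ J, ∀ p ∈ P, ∃! x, x ∈ S ∩ p) ∧
      ∃ X, ∀ b ∈ B, symmDiff X b ∉ J := by
  classical
  obtain ⟨r, hr, hord⟩ := Cardinal.exists_ord_eq α
  let _ : LinearOrder α := linearOrderOfSTO r
  have _ : WellFoundedLT α := ⟨hr.wf⟩
  have hIio : ∀ i : α, Cardinal.mk (Iio i) < Cardinal.mk α := fun i =>
    Cardinal.mk_Iio_lt i hord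
  have hα0 : Cardinal.aleph0 < Cardinal.mk α := by
    rw [hα]
    exact Cardinal.aleph0_lt_continuum
  have wf := wellFounded_lt (α := α)
  set J : Set (Set α) := {A | ∃ f : α → α, (∀ x ∈ A, f x < x) ∧
    ∀ y, {x | x ∈ A ∧ f x = y}.Countable} with hJ
  have hsub : ∀ s ∈ J, ∀ t ⊆ s, t ∈ J := by
    rintro s ⟨f, h1, h2⟩ t ht
    refine ⟨f, fun x hx => h1 x (ht hx), fun y => ?_⟩
    exact (h2 y).mono fun x (hx : x ∈ t ∧ f x = y) => (⟨ht hx.1, hx.2⟩ : x ∈ s ∧ f x = y)
  have hunion : ∀ s : ℕ → Set α, (∀ n, s n ∈ J) → (⋃ n, s n) ∈ J := by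
    intro s hs
    choose f h1 h2 using hs
    obtain ⟨F, hF⟩ : ∃ F : α → α, ∀ x (h : ∃ n, x ∈ s n), F x = f (Nat.find h) x :=
      ⟨fun x => if h : ∃ n, x ∈ s n then f (Nat.find h) x else x, fun x h => dif_pos h⟩
    refine ⟨F, ?_, ?_⟩
    · intro x hx
      have h := mem_iUnion.1 hx
      rw [hF x h]
      exact h1 _ x (Nat.find_spec h)
    · intro y
      refine (countable_iUnion fun n => h2 n y).mono ?_
      rintro x ⟨hx, hxy⟩
      have h := mem_iUnion.1 hx
      rw [hF x h] at hxy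
      exact mem_iUnion.2 ⟨Nat.find h, Nat.find_spec h, hxy⟩
  refine ⟨J, hsub, hunion, ?_, ?_⟩
  · intro P hP hP2
    have hex : ∀ p : Set α, ∃ q : α × α, p ∈ P → q.1 ∈ p ∧ q.2 ∈ p ∧ q.1 < q.2 := by
      intro p
      by_cases hp : p ∈ P
      · obtain ⟨x, hx, y, hy, hxy⟩ := hP2 p hp
        rcases lt_or_gt_of_ne hxy with h | h
        · exact ⟨(x, y), fun _ => ⟨hx, hy, h⟩⟩
        · exact ⟨(y, x), fun _ => ⟨hy, hx, h⟩⟩
      · obtain ⟨x⟩ : Nonempty α := by
          rw [← Cardinal.mk_ne_zero_iff, hα]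
          exact Cardinal.continuum_ne_zero
        exact ⟨(x, x), fun h => absurd h hp⟩
    choose q hq using hex
    obtain ⟨F, hF⟩ : ∃ F : α → α, ∀ x (h : ∃ p ∈ P, x = (q p).2),
        F x = (q (Classical.choose h)).1 :=
      ⟨fun x => if h : ∃ p ∈ P, x = (q p).2 then (q (Classical.choose h)).1 else x,
        fun x h => dif_pos h⟩
    refine ⟨{x | ∃ p ∈ P, x = (q p).2}, ⟨F, ?_, ?_⟩, ?_⟩
    · rintro x hx
      have h : ∃ p ∈ P, x = (q p).2 := hx
      rw [hF x h]
      obtain ⟨i1, i2⟩ := Classical.choose_spec h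
      have i3 := (hq _ i1).2.2
      rw [← i2] at i3
      exact i3
    · intro y
      refine Set.Subsingleton.countable ?_
      rintro x ⟨hx, hxy⟩ x' ⟨hx', hxy'⟩
      have h : ∃ p ∈ P, x = (q p).2 := hx
      have h' : ∃ p ∈ P, x' = (q p).2 := hx'
      rw [hF x h] at hxy
      rw [hF x' h'] at hxy'
      obtain ⟨i1, i2⟩ := Classical.choose_spec h
      obtain ⟨j1, j2⟩ := Classical.choose_spec h'
      have e1 : Classical.choose h = Classical.choose h' := by
        refine hP _ i1 _ j1 ⟨y, ?_, ?_⟩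
        · rw [← hxy]; exact (hq _ i1).1
        · rw [← hxy']; exact (hq _ j1).1
      rw [i2, j2, e1]
    · intro p hp
      refine ⟨(q p).2, ⟨⟨p, hp, rfl⟩, (hq p hp).2.1⟩, ?_⟩
      rintro x ⟨⟨p', hp', hx⟩, hxp⟩
      have : p' = p := hP p' hp' p hp ⟨x, by rw [hx]; exact (hq p' hp').2.1, hxp⟩
      rw [hx, this]
  · by_contra hcon
    push Not at hcon
    have hBne : B.Nonempty := by
      obtain ⟨b, hb, -⟩ := hcon ∅
      exact ⟨b, hb⟩
    obtain ⟨b00, hb00⟩ := hBne
    have hcard : Cardinal.mk (ℕ → B) ≤ Cardinal.mk α := by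
      rw [hα, ← Cardinal.power_def, Cardinal.mk_nat]
      refine (Cardinal.power_le_power_right hB).trans ?_
      rw [Cardinal.continuum_power_aleph0]
    obtain ⟨em⟩ := hcard
    have : Nonempty (ℕ → B) := ⟨fun _ => ⟨b00, hb00⟩⟩
    set s : α → (ℕ → B) := Function.invFun em with hs
    have hsurj : Function.Surjective s := Function.invFun_surjective em.injective
    have hh : ∀ x : α, ∃ h : ℕ → Bool, ∀ y, y < x → h ≠ fun n => decide (x ∈ (s y n).1) := by
      intro x
      by_contra hc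
      push Not at hc
      have h1 : (univ : Set (ℕ → Bool)) ⊆
          range fun y : Iio x => fun n => decide (x ∈ (s y.1 n).1) := by
        intro h _
        obtain ⟨y, hy, hyh⟩ := hc h
        exact ⟨⟨y, hy⟩, hyh.symm⟩
      have h2 := (Cardinal.mk_le_mk_of_subset h1).trans Cardinal.mk_range_le
      rw [Cardinal.mk_univ] at h2
      have h3 : Cardinal.mk (ℕ → Bool) = Cardinal.mk α := by
        rw [hα]; simp
      rw [h3] at h2
      exact absurd h2 (not_le.2 (hIio x))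
    choose h hh using hh
    choose b hbB hbJ using fun n : ℕ => hcon {x | h x n = true}
    obtain ⟨y, hy⟩ := hsurj fun n => ⟨b n, hbB n⟩
    have hfin : {x | y < x} ∈ J := by
      refine hsub _ (hunion _ hbJ) _ ?_
      intro x hx
      have h1 := hh x y hx
      have h2 : ∃ n, h x n ≠ decide (x ∈ (s y n).1) := by
        by_contra hc
        push Not at hc
        exact h1 (funext hc)
      obtain ⟨n, hn⟩ := h2
      rw [hy] at hn
      refine mem_iUnion.2 ⟨n, ?_⟩
      rw [mem_symmDiff]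
      by_cases h3 : x ∈ b n
      · right
        refine ⟨h3, ?_⟩
        intro h4
        apply hn
        have h5 : h x n = true := h4
        rw [h5]
        simp [h3]
      · left
        refine ⟨?_, h3⟩
        change h x n = true
        by_contra h4
        apply hn
        have h5 : h x n = false := by simpa using h4
        rw [h5]
        simp [h3]
    obtain ⟨f, hf1, hf2⟩ := hfin
    exact no_regressive hIio hα0 y f (fun x hx => hf1 x hx) fun z => hf2 z

/-- For every nondegenerate interval `I` of the real line there is a σ-algebra `N` of subsets of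
`I`, not equal to the family of all subsets of `I`, which contains all subintervals of `I` and, for
every partition of `I` into pieces with at least two elements, a selector. -/
theorem result (I : Set ℝ) (hI : I.OrdConnected) (hI2 : I.Nontrivial) :
    ∃ N : Set (Set ℝ),
      (∀ A ∈ N, A ⊆ I) ∧
      (∀ K ⊆ I, K.OrdConnected → K ∈ N) ∧
      (∀ A ∈ N, I \ A ∈ N) ∧
      (∀ A : ℕ → Set ℝ, (∀ n, A n ∈ N) → (⋃ n, A n) ∈ N) ∧
      (∀ P : Set (Set ℝ), ⋃₀ P = I → (∀ p ∈ P, ∀ q ∈ P, p ≠ q → Disjoint p q) →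
        (∀ p ∈ P, p.Nontrivial) → ∃ S ∈ N, ∀ p ∈ P, (S ∩ p).ncard = 1) ∧
      ∃ X ⊆ I, X ∉ N := by
  have hmeasI : MeasurableSet I := hI.measurableSet
  have hcard : Cardinal.mk I = Cardinal.continuum := by
    refine le_antisymm ?_ ?_
    · exact (Cardinal.mk_set_le I).trans Cardinal.mk_real.le
    · obtain ⟨x, hx, y, hy, hxy⟩ := hI2
      have key : ∀ u ∈ I, ∀ v ∈ I, u < v → Cardinal.continuum ≤ Cardinal.mk I := by
        intro u hu v hv huv
        rw [← Cardinal.mk_Icc_real huv]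
        exact Cardinal.mk_le_mk_of_subset (hI.out hu hv)
      rcases lt_or_gt_of_ne hxy with h | h
      · exact key x hx y hy h
      · exact key y hy x hx h
  set B : Set (Set I) := {b | MeasurableSet (Subtype.val '' b : Set ℝ)} with hBdef
  have hBm : ∀ b : Set I, b ∈ B ↔ MeasurableSet (Subtype.val '' b : Set ℝ) := fun b => Iff.rfl
  have hB : Cardinal.mk B ≤ Cardinal.continuum := by
    have h1 : Cardinal.mk {t : Set ℝ | MeasurableSet t} ≤ Cardinal.continuum := by
      obtain ⟨c, hc, hc2⟩ := MeasurableSpace.CountablyGenerated.isCountablyGenerated (α := ℝ)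
      have h2 := MeasurableSpace.cardinal_measurableSet_le_continuum (s := c)
        ((Cardinal.le_aleph0_iff_set_countable.2 hc).trans Cardinal.aleph0_le_continuum)
      rw [← hc2] at h2
      exact h2
    refine le_trans ?_ h1
    refine Cardinal.mk_le_of_injective (f := fun b : B =>
      (⟨Subtype.val '' b.1, b.2⟩ : {t : Set ℝ | MeasurableSet t})) ?_
    intro b b' h
    have h2 : (Subtype.val '' b.1 : Set ℝ) = Subtype.val '' b'.1 := congrArg Subtype.val h
    exact Subtype.ext (Subtype.val_injective.image_injective h2)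
  obtain ⟨J, hJ1, hJ2, hJ3, X, hX⟩ := core hcard B hB
  have hJ0 : (∅ : Set I) ∈ J := by
    obtain ⟨S, hS, -⟩ := hJ3 ∅ (by simp) (by simp)
    exact hJ1 S hS ∅ (empty_subset _)
  set N : Set (Set ℝ) := {A | A ⊆ I ∧ ∃ b ∈ B, symmDiff (Subtype.val ⁻¹' A : Set I) b ∈ J} with hN
  have hval : ∀ A ⊆ I, (Subtype.val '' (Subtype.val ⁻¹' A : Set I) : Set ℝ) = A := by
    intro A hA
    rw [Subtype.image_preimage_coe, inter_eq_right]
    exact hA
  refine ⟨N, fun A hA => hA.1, ?_, ?_, ?_, ?_, ?_⟩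
  · intro K hK hKo
    refine ⟨hK, Subtype.val ⁻¹' K, ?_, ?_⟩
    · rw [hBm]
      rw [hval K hK]
      exact hKo.measurableSet
    · rw [symmDiff_self]
      exact hJ0
  · rintro A ⟨hA, b, hb, hAb⟩
    refine ⟨sdiff_subset, bᶜ, ?_, ?_⟩
    · rw [hBm]
      have h1 : (Subtype.val '' bᶜ : Set ℝ) = I \ Subtype.val '' b := by
        rw [image_compl_eq_range_sdiff_image Subtype.val_injective, Subtype.range_val]
      rw [h1]
      exact hmeasI.diff hb
    · have h2 : (Subtype.val ⁻¹' (I \ A) : Set I) = (Subtype.val ⁻¹' A)ᶜ := by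
        ext x
        simp
      rw [h2, compl_symmDiff_compl]
      exact hAb
  · intro A hA
    choose hA1 b hb hAb using hA
    refine ⟨iUnion_subset hA1, ⋃ n, b n, ?_, ?_⟩
    · rw [hBm]
      rw [image_iUnion]
      exact MeasurableSet.iUnion hb
    · refine hJ1 _ (hJ2 _ hAb) _ ?_
      rw [preimage_iUnion]
      intro x hx
      rw [mem_symmDiff] at hx
      rcases hx with ⟨h1, h2⟩ | ⟨h1, h2⟩
      · obtain ⟨n, hn⟩ := mem_iUnion.1 h1
        refine mem_iUnion.2 ⟨n, mem_symmDiff.2 (Or.inl ⟨hn, fun h => h2 (mem_iUnion.2 ⟨n, h⟩)⟩)⟩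
      · obtain ⟨n, hn⟩ := mem_iUnion.1 h1
        refine mem_iUnion.2 ⟨n, mem_symmDiff.2 (Or.inr ⟨hn, fun h => h2 (mem_iUnion.2 ⟨n, h⟩)⟩)⟩
  · intro P hPI hPd hP2
    have hpI : ∀ p ∈ P, p ⊆ I := fun p hp => by
      rw [← hPI]
      exact subset_sUnion_of_mem hp
    obtain ⟨S, hS, hS2⟩ := hJ3 ((fun p : Set ℝ => (Subtype.val ⁻¹' p : Set I)) '' P) (by
        rintro _ ⟨p, hp, rfl⟩ _ ⟨q, hq, rfl⟩ ⟨x, hx1, hx2⟩
        by_contra hne
        have hpq : p ≠ q := fun h => hne (by rw [h])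
        exact disjoint_left.1 (hPd p hp q hq hpq) hx1 hx2) (by
        rintro _ ⟨p, hp, rfl⟩
        obtain ⟨x, hx, y, hy, hxy⟩ := hP2 p hp
        exact ⟨⟨x, hpI p hp hx⟩, hx, ⟨y, hpI p hp hy⟩, hy, fun h => hxy (congrArg Subtype.val h)⟩)
    refine ⟨Subtype.val '' S, ⟨?_, ∅, ?_, ?_⟩, ?_⟩
    · rintro _ ⟨x, -, rfl⟩
      exact x.2
    · rw [hBm]
      rw [image_empty]
      exact MeasurableSet.empty
    · rw [preimage_image_eq _ Subtype.val_injective]
      have : symmDiff S (∅ : Set I) = S := symmDiff_bot S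
      rw [this]
      exact hS
    · intro p hp
      obtain ⟨x, hx, hx2⟩ := hS2 _ ⟨p, hp, rfl⟩
      rw [ncard_eq_one]
      refine ⟨x.1, ?_⟩
      ext z
      constructor
      · rintro ⟨⟨w, hw, rfl⟩, hzp⟩
        rw [mem_singleton_iff, hx2 w ⟨hw, hzp⟩]
      · intro hz
        rw [mem_singleton_iff] at hz
        rw [hz]
        exact ⟨⟨x, hx.1, rfl⟩, hx.2⟩
  · refine ⟨Subtype.val '' X, ?_, ?_⟩
    · rintro _ ⟨x, -, rfl⟩
      exact x.2
    · rintro ⟨-, b, hb, hXb⟩
      rw [preimage_image_eq _ Subtype.val_injective] at hXb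
      exact hX b hb hXb

end Pool.Agent.Results.MP_04ddd8_lc.ProperSigmaAlgebra
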